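import Mathlib

/-!
The omega values of the generators of the numerical monoids generated by an interval.
-/

namespace Pool.Agent.Results.MP_d5f0e7_al.Omega

open Finset

/-- The monoid `Γ_{n,k} = ⟨n, n+1, …, n+k⟩`. -/
def Gam (n k : ℕ) : AddSubmonoid ℕ := AddSubmonoid.closure {x | n ≤ x ∧ x ≤ n + k}

/-- `x` divides `y` in `Γ`: `y - x ∈ Γ`. -/
def Divides (Γ : AddSubmonoid ℕ) (x y : ℕ) : Prop := ∃ z ∈ Γ, y = x + z

/-- The property in the definition of `ω(x)`: whenever `x` divides a sum of elements of `Γ`, it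
divides a subsum with at most `m` summands. -/
def Bound (Γ : AddSubmonoid ℕ) (x m : ℕ) : Prop :=
  ∀ (r : ℕ) (a : Fin r → ℕ), (∀ j, a j ∈ Γ) → Divides Γ x (∑ j, a j) →
    ∃ T : Finset (Fin r), T.card ≤ m ∧ Divides Γ x (∑ j ∈ T, a j)

/-- The omega value of `x`: the least `m` with the property `Bound Γ x m`. -/
noncomputable def omega (Γ : AddSubmonoid ℕ) (x : ℕ) : ℕ := sInf {m | Bound Γ x m}

/-- The values: with `q = ⌊(n-2)/k⌋`,
`ω(n) = q + 1` if `k ∣ n - 2` and `q + 1 ∤ k - 1`, and `ω(n) = q + 2` otherwise;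
`ω(n+i) = q + 2` if `k ∣ n - 2` and `q + 2 ∤ i - 1`, and `ω(n+i) = q + 3` otherwise
(`1 ≤ i ≤ k`). -/
def value (n k i : ℕ) : ℕ :=
  if i = 0 then (if k ∣ n - 2 ∧ ¬ ((n - 2) / k + 1 ∣ k - 1) then (n - 2) / k + 1
    else (n - 2) / k + 2)
  else (if k ∣ n - 2 ∧ ¬ ((n - 2) / k + 2 ∣ i - 1) then (n - 2) / k + 2
    else (n - 2) / k + 3)

lemma mem_of_interval (n k : ℕ) : ∀ m y : ℕ, m * n ≤ y → y ≤ m * (n + k) → y ∈ Gam n k := by
  intro m
  induction m with
  | zero =>
    intro y _ h
    have : y = 0 := by omega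
    subst this
    exact (Gam n k).zero_mem
  | succ m ih =>
    intro y h1 h2
    have e1 : (m + 1) * n = m * n + n := by ring
    have e2 : (m + 1) * (n + k) = m * (n + k) + n + k := by ring
    have e3 : m * (n + k) = m * n + m * k := by ring
    rw [e1] at h1
    rw [e2] at h2
    by_cases h : y ≤ m * n + n + k
    · have hy : y = m * n + (y - m * n) := by omega
      rw [hy]
      refine (Gam n k).add_mem (ih _ le_rfl (by rw [e3]; omega)) ?_
      exact AddSubmonoid.subset_closure ⟨by omega, by omega⟩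
    · have hy : y = (y - (n + k)) + (n + k) := by omega
      rw [hy]
      refine (Gam n k).add_mem (ih _ (by omega) (by omega)) ?_
      exact AddSubmonoid.subset_closure ⟨by omega, by omega⟩

lemma interval_of_mem {n k y : ℕ} (h : y ∈ Gam n k) : ∃ m, m * n ≤ y ∧ y ≤ m * (n + k) := by
  induction h using AddSubmonoid.closure_induction with
  | mem x hx => exact ⟨1, by simpa using hx.1, by simpa using hx.2⟩
  | zero => exact ⟨0, by simp, by simp⟩
  | add x y _ _ hx hy =>
    obtain ⟨a, ha1, ha2⟩ := hx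
    obtain ⟨b, hb1, hb2⟩ := hy
    exact ⟨a + b, by rw [add_mul]; omega, by rw [add_mul]; omega⟩

lemma not_mem_gap {n k m w : ℕ} (h1 : m * k < w) (h2 : w < n) : m * n + w ∉ Gam n k := by
  intro h
  obtain ⟨p, hp1, hp2⟩ := interval_of_mem h
  rcases Nat.lt_or_ge m p with hlt | hge
  · have : (m + 1) * n ≤ p * n := Nat.mul_le_mul_right n hlt
    have e : (m + 1) * n = m * n + n := by ring
    omega
  · have : p * (n + k) ≤ m * (n + k) := Nat.mul_le_mul_right _ hge
    have e : m * (n + k) = m * n + m * k := by ring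
    omega

/-- Lower bound from a family of elements. -/
lemma lower {Γ : AddSubmonoid ℕ} {x r m : ℕ} (a : Fin r → ℕ) (ha : ∀ j, a j ∈ Γ)
    (h1 : Divides Γ x (∑ j, a j)) (h2 : ∀ j, ∀ z ∈ Γ, ∑ j, a j ≠ a j + x + z)
    (hm : Bound Γ x m) : r ≤ m := by
  obtain ⟨T, hT, z, hz, hzT⟩ := hm r a ha h1
  by_contra hlt
  have hne : T ≠ univ := by
    rintro rfl
    simp at hT
    omega
  obtain ⟨j, hj⟩ : ∃ j, j ∉ T := by
    by_contra hcon
    push Not at hcon
    exact hne (Finset.eq_univ_iff_forall.mpr hcon)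
  have hsum : ∑ j, a j = a j + (∑ j ∈ T, a j) + ∑ i ∈ (univ \ insert j T), a i := by
    rw [← Finset.sum_sdiff (Finset.subset_univ (insert j T)), Finset.sum_insert hj]
    ring
  refine h2 j (z + ∑ i ∈ (univ \ insert j T), a i)
    (Γ.add_mem hz (Γ.sum_mem fun i _ => ha i)) ?_
  rw [hsum, hzT]
  ring

lemma sum_family {r s A : ℕ} (hs : s ≤ r) :
    ∑ j : Fin r, (if j.val < s then A + 1 else A) = r * A + s := by
  rw [Fin.sum_univ_eq_sum_range (fun j => if j < s then A + 1 else A) r]
  rw [Finset.sum_ite]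
  have e1 : (range r).filter (fun j => j < s) = range s := by
    ext j; simp only [mem_filter, mem_range]; omega
  have e2 : ((range r).filter (fun j => ¬ j < s)).card = r - s := by
    have := Finset.card_filter_add_card_filter_not (s := range r) (fun j => j < s)
    rw [e1] at this
    simp at this ⊢
    omega
  rw [Finset.sum_const, Finset.sum_const, e1, e2, card_range, smul_eq_mul, smul_eq_mul]
  obtain ⟨d, rfl⟩ := Nat.exists_eq_add_of_le hs
  have : s + d - s = d := by omega
  rw [this]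
  ring

/-- Lower bound from a family of generators with the two values `n+c` and `n+c+1`. -/
lemma lower_two {n k i r c s m : ℕ} (hs : s ≤ r) (hc : c ≤ k) (hc' : 0 < s → c + 1 ≤ k)
    {z g1 g2 : ℕ}
    (hz : z ∈ Gam n k) (hz' : r * (n + c) + s = (n + i) + z)
    (hg1 : s < r → g1 ∉ Gam n k ∧ r * (n + c) + s = (n + c) + (n + i) + g1)
    (hg2 : 0 < s → g2 ∉ Gam n k ∧ r * (n + c) + s = (n + c + 1) + (n + i) + g2)
    (hm : Bound (Gam n k) (n + i) m) : r ≤ m := by
  refine lower (fun j : Fin r => if j.val < s then (n + c) + 1 else n + c) ?_ ?_ ?_ hm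
  · intro j
    by_cases hj : j.val < s
    · simp only [hj, if_true]
      have := hc' (by omega)
      exact AddSubmonoid.subset_closure ⟨by omega, by omega⟩
    · simp only [hj, if_false]
      exact AddSubmonoid.subset_closure ⟨by omega, by omega⟩
  · rw [sum_family hs]
    exact ⟨z, hz, hz'⟩
  · intro j y hy
    rw [sum_family hs]
    by_cases hj : j.val < s
    · simp only [hj, if_true]
      obtain ⟨h1, h2⟩ := hg2 (by omega)
      intro h
      have : y = g2 := by omega
      subst this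
      exact h1 hy
    · simp only [hj, if_false]
      obtain ⟨h1, h2⟩ := hg1 (by have := j.isLt; omega)
      intro h
      have : y = g1 := by omega
      subst this
      exact h1 hy

/-- The structure of a minimal set of summands. -/
lemma key {n k i : ℕ} (hkn : k < n) (hik : i ≤ k) {r : ℕ} {a : Fin r → ℕ}
    {T : Finset (Fin r)} {p b : Fin r → ℕ} (hab : ∀ j, a j = p j * n + b j)
    (hb : ∀ j, b j ≤ p j * k)
    (hmin : ∀ j ∈ T, ¬ Divides (Gam n k) (n + i) (∑ l ∈ T.erase j, a l))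
    (hT : 3 ≤ T.card) (hp : ∀ j ∈ T, 1 ≤ p j) :
    ∀ j ∈ T, ∃ P D : ℕ, T.card ≤ P + 2 ∧ ∑ l ∈ T, b l = D + b j ∧
      ((P * k + i < D ∧ D < n + i) ∨ (D < i ∧ (P - 1) * k + i < n + D)) := by
  intro j hj
  have hcard : T.card - 1 ≤ ∑ l ∈ T.erase j, p l := by
    rw [← Finset.card_erase_of_mem hj, Finset.card_eq_sum_ones]
    exact Finset.sum_le_sum fun l hl => hp l (Finset.mem_of_mem_erase hl)
  have hsum : ∑ l ∈ T.erase j, a l = (∑ l ∈ T.erase j, p l) * n + ∑ l ∈ T.erase j, b l := by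
    rw [Finset.sum_mul, ← Finset.sum_add_distrib]
    exact Finset.sum_congr rfl fun l _ => hab l
  have hD : ∑ l ∈ T.erase j, b l ≤ (∑ l ∈ T.erase j, p l) * k := by
    rw [Finset.sum_mul]
    exact Finset.sum_le_sum fun l _ => hb l
  set D := ∑ l ∈ T.erase j, b l with hDdef
  obtain ⟨P, hP⟩ : ∃ P, ∑ l ∈ T.erase j, p l = P + 2 := ⟨∑ l ∈ T.erase j, p l - 2, by omega⟩
  rw [hP] at hcard hsum hD
  have hnot := hmin j hj
  rw [hsum] at hnot
  refine ⟨P + 1, D, by omega, ?_, ?_⟩
  · rw [hDdef, Finset.sum_erase_add _ _ hj]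
  · rcases Nat.lt_or_ge D i with hlt | hge
    · right
      refine ⟨hlt, ?_⟩
      by_contra hcon
      refine hnot ⟨P * n + (n + D - i), ?_, ?_⟩
      · refine mem_of_interval n k P _ (by omega) ?_
        have e : P * (n + k) = P * n + P * k := by ring
        have e' : (P + 1 - 1) * k = P * k := by simp
        rw [e'] at hcon
        omega
      · have e : (P + 2) * n = P * n + n + n := by ring
        omega
    · left
      have e : (P + 2) * n = P * n + n + n := by ring
      have e1 : (P + 1) * (n + k) = P * n + n + (P + 1) * k := by ring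
      have e2 : (P + 2) * (n + k) = P * n + n + n + (P + 2) * k := by ring
      have e3 : (P + 1) * n = P * n + n := by ring
      constructor
      · by_contra hcon
        refine hnot ⟨(P + 1) * n + (D - i), mem_of_interval n k (P + 1) _ (by omega) ?_, ?_⟩
        · rw [e1, e3]; omega
        · rw [e, e3]; omega
      · by_contra hcon
        refine hnot ⟨(P + 1) * n + (D - i), mem_of_interval n k (P + 2) _ ?_ ?_, ?_⟩
        · rw [e, e3]; omega
        · rw [e2, e3]; omega
        · rw [e, e3]; omega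

/-- Upper bound. -/
lemma upper {N k i q δ : ℕ} (hkn : k < N + 2) (hik : i ≤ k)
    (hN : N = q * k + δ) (hδ : δ < k) {F : ℕ}
    (hF2 : 2 ≤ F)
    (hF : ∀ r, F < r → 3 ≤ r → r ≤ q + 3 → (i = 0 → r ≤ q + 2) →
      (r = q + 3 → δ = 0 → q + 2 ∣ i - 1) →
      (i = 0 → r = q + 2 → δ = 0 → q + 1 ∣ k - 1) → False) :
    Bound (Gam (N + 2) k) (N + 2 + i) F := by
  classical
  intro r a ha hdiv
  -- a minimal set of summands
  obtain ⟨T, hT, hTmin⟩ := Finset.exists_min_image
    ((univ : Finset (Finset (Fin r))).filter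
      fun T => Divides (Gam (N + 2) k) (N + 2 + i) (∑ j ∈ T, a j)) Finset.card
    ⟨univ, by simpa using hdiv⟩
  simp only [Finset.mem_filter, Finset.mem_univ, true_and] at hT hTmin
  refine ⟨T, ?_, hT⟩
  by_contra hlt
  push Not at hlt
  have hmin : ∀ j ∈ T, ¬ Divides (Gam (N + 2) k) (N + 2 + i) (∑ l ∈ T.erase j, a l) := by
    intro j hj h
    have h1 := hTmin _ h
    rw [Finset.card_erase_of_mem hj] at h1
    have : 0 < T.card := Finset.card_pos.mpr ⟨j, hj⟩
    omega
  choose p hp1 hp2 using fun j => interval_of_mem (ha j)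
  have hab : ∀ j, a j = p j * (N + 2) + (a j - p j * (N + 2)) := fun j => by
    have := hp1 j; omega
  have hb : ∀ j, a j - p j * (N + 2) ≤ p j * k := fun j => by
    have h1 := hp2 j
    have : p j * (N + 2 + k) = p j * (N + 2) + p j * k := by ring
    omega
  have hp : ∀ j ∈ T, 1 ≤ p j := by
    intro j hj
    by_contra hcon
    have h0 : p j = 0 := by omega
    have ha0 : a j = 0 := by
      have := hp2 j
      rw [h0] at this
      omega
    apply hmin j hj
    rw [← Finset.add_sum_erase T a hj, ha0, zero_add] at hT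
    exact hT
  have hT3 : 3 ≤ T.card := by omega
  have hkey := key hkn hik hab hb hmin hT3 hp
  set b := fun j => a j - p j * (N + 2) with hbdef
  -- the common value of the `b j`
  have hconst : ∀ C : ℕ, (∀ j ∈ T, ∑ l ∈ T, b l = C + b j) → (T.card - 1) ∣ C := by
    intro C hC
    have hval : ∀ j ∈ T, b j = ∑ l ∈ T, b l - C := fun j hj => by have := hC j hj; omega
    have hsum : ∑ l ∈ T, b l = T.card * (∑ l ∈ T, b l - C) := by
      conv_lhs => rw [Finset.sum_congr rfl hval]
      rw [Finset.sum_const, smul_eq_mul]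
    obtain ⟨j, hj⟩ : T.Nonempty := Finset.card_pos.mp (by omega)
    have hge : C ≤ ∑ l ∈ T, b l := by have := hC j hj; omega
    set B := ∑ l ∈ T, b l
    obtain ⟨β, hβ⟩ := Nat.exists_eq_add_of_le hge
    rw [hβ] at hsum
    have e : C + β - C = β := by omega
    rw [e] at hsum
    obtain ⟨c, hc⟩ : ∃ c, T.card = c + 1 := ⟨T.card - 1, by omega⟩
    rw [hc] at hsum ⊢
    refine ⟨β, ?_⟩
    have e' : (c + 1) * β = c * β + β := by ring
    simp only [Nat.add_sub_cancel]
    omega
  obtain ⟨j0, hj0⟩ : T.Nonempty := Finset.card_pos.mp (by omega)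
  -- cases
  have hA : ∀ P D : ℕ, T.card ≤ P + 2 → P * k + i < D → D < N + 2 + i →
      P ≤ q ∧ (δ = 0 → T.card = q + 2 → D = q * k + 1 + i) := by
    intro P D h1 h2 h3
    have hPq : P ≤ q := by
      by_contra hcon
      have : (q + 1) * k ≤ P * k := Nat.mul_le_mul_right k (by omega)
      have e : (q + 1) * k = q * k + k := by ring
      omega
    refine ⟨hPq, fun hδ0 hc => ?_⟩
    have : P = q := by omega
    subst this
    omega
  have hB : ∀ P D : ℕ, T.card ≤ P + 2 → D < i → (P - 1) * k + i < N + 2 + D →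
      P - 1 ≤ q ∧ (δ = 0 → T.card = q + 3 → D = i - 1) := by
    intro P D h1 h2 h3
    have hPq : P - 1 ≤ q := by
      by_contra hcon
      have : (q + 1) * k ≤ (P - 1) * k := Nat.mul_le_mul_right k (by omega)
      have e : (q + 1) * k = q * k + k := by ring
      omega
    refine ⟨hPq, fun hδ0 hc => ?_⟩
    have : P - 1 = q := by omega
    rw [this] at h3
    omega
  refine hF T.card hlt hT3 ?_ ?_ ?_ ?_
  · obtain ⟨P, D, h1, _, h3⟩ := hkey j0 hj0
    rcases h3 with ⟨h3, h4⟩ | ⟨h3, h4⟩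
    · have := (hA P D h1 h3 h4).1; omega
    · have := (hB P D h1 h3 h4).1; omega
  · intro hi
    obtain ⟨P, D, h1, _, h3⟩ := hkey j0 hj0
    rcases h3 with ⟨h3, h4⟩ | ⟨h3, h4⟩
    · have := (hA P D h1 h3 h4).1; omega
    · omega
  · intro hr hδ0
    have h := hconst (i - 1) ?_
    · rw [hr] at h
      simpa using h
    · intro j hj
      obtain ⟨P, D, h1, h2, h3⟩ := hkey j hj
      rcases h3 with ⟨h3, h4⟩ | ⟨h3, h4⟩
      · have := (hA P D h1 h3 h4).1; omega
      · have := (hB P D h1 h3 h4).2 hδ0 hr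
        rw [h2, this]
  · intro hi hr hδ0
    have h := hconst (q * k + 1) ?_
    · rw [hr] at h
      have h' : q + 1 ∣ q * k + 1 := by simpa using h
      have e : (q + 1) * k = (q * k + 1) + (k - 1) := by
        have : (q + 1) * k = q * k + k := by ring
        omega
      have h'' : q + 1 ∣ (q * k + 1) + (k - 1) := e ▸ Dvd.intro k rfl
      exact (Nat.dvd_add_right h').mp h''
    · intro j hj
      obtain ⟨P, D, h1, h2, h3⟩ := hkey j hj
      rcases h3 with ⟨h3, h4⟩ | ⟨h3, h4⟩
      · have := (hA P D h1 h3 h4).2 hδ0 hr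
        rw [h2, this, hi]
      · omega

/-- Lower bound, `1 ≤ i`, value `q + 3`. -/
lemma lower_I {N k i q δ m : ℕ} (hkn : k < N + 2) (hi1 : 1 ≤ i) (hik : i ≤ k)
    (hN : N = q * k + δ) (hδ : δ < k) (hcase : δ = 0 → q + 2 ∣ i - 1)
    (hm : Bound (Gam (N + 2) k) (N + 2 + i) m) : q + 3 ≤ m := by
  obtain ⟨c, s, hcs, hs⟩ : ∃ c s, i = (q + 2) * c + s + 1 ∧ s < q + 2 :=
    ⟨(i - 1) / (q + 2), (i - 1) % (q + 2),
      by have := Nat.div_add_mod (i - 1) (q + 2); omega, Nat.mod_lt _ (by omega)⟩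
  have hs0 : δ = 0 → s = 0 := by
    intro h
    have h1 := hcase h
    have h2 : i - 1 = (q + 2) * c + s := by omega
    rw [h2] at h1
    exact Nat.eq_zero_of_dvd_of_lt ((Nat.dvd_add_right (Dvd.intro c rfl)).mp h1) hs
  have hck : (q + 2) * c = q * c + 2 * c := by ring
  have e1 : (q + 3) * (N + 2 + c) + s = (q + 2) * (N + 2) + (N + 2) + (q + 2) * c + s + c := by ring
  have e2 : (q + 2) * (N + 2) = q * (N + 2) + (N + 2) + (N + 2) := by ring
  have eg : (q + 1) * (N + 2) = q * (N + 2) + (N + 2) := by ring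
  have eqk : (q + 1) * k = q * k + k := by ring
  have eqk2 : (q + 2) * k = q * k + 2 * k := by ring
  have hz : ∃ z ∈ Gam (N + 2) k, (q + 3) * (N + 2 + c) + s = (N + 2 + i) + z := by
    rcases Nat.eq_zero_or_pos c with h0 | h0
    · refine ⟨(q + 1) * (N + 2) + (N + 1), mem_of_interval _ _ (q + 1) _ (by omega) ?_, ?_⟩
      · have : (q + 1) * (N + 2 + k) = (q + 1) * (N + 2) + (q + 1) * k := by ring
        omega
      · subst h0
        rw [e1]
        omega
    · refine ⟨(q + 2) * (N + 2) + (c - 1), mem_of_interval _ _ (q + 2) _ (by omega) ?_, ?_⟩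
      · have : (q + 2) * (N + 2 + k) = (q + 2) * (N + 2) + (q + 2) * k := by ring
        omega
      · rw [e1]
        omega
  obtain ⟨z, hz, hz'⟩ := hz
  refine lower_two (r := q + 3) (c := c) (s := s) (g1 := q * (N + 2) + (N + 1))
    (g2 := q * (N + 2) + N) (by omega) (by omega) (by intro h; omega) hz hz' ?_ ?_ hm
  · intro _
    exact ⟨not_mem_gap (by omega) (by omega), by rw [e1]; omega⟩
  · intro h
    have : 0 < δ := by
      rcases Nat.eq_zero_or_pos δ with h' | h'
      · have := hs0 h'; omega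
      · exact h'
    exact ⟨not_mem_gap (by omega) (by omega), by rw [e1]; omega⟩

/-- Lower bound, `1 ≤ i`, value `q + 2`. -/
lemma lower_II {N k i q m : ℕ} (hkn : k < N + 2) (hi1 : 1 ≤ i) (hik : i ≤ k)
    (hN : N = q * k) (hcase : ¬ (q + 2 ∣ i - 1))
    (hm : Bound (Gam (N + 2) k) (N + 2 + i) m) : q + 2 ≤ m := by
  have hi2 : 2 ≤ i := by
    by_contra h
    have : i = 1 := by omega
    subst this
    simp at hcase
  obtain ⟨q', rfl⟩ : ∃ q', q = q' + 1 := by
    rcases Nat.eq_zero_or_pos q with h | h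
    · subst h; omega
    · exact ⟨q - 1, by omega⟩
  obtain ⟨c, s, hcs, hs⟩ : ∃ c s, i = (q' + 2) * c + s + 1 ∧ s < q' + 2 :=
    ⟨(i - 1) / (q' + 2), (i - 1) % (q' + 2),
      by have := Nat.div_add_mod (i - 1) (q' + 2); omega, Nat.mod_lt _ (by omega)⟩
  have hck : (q' + 2) * c = q' * c + 2 * c := by ring
  have e2 : (q' + 2) * (N + 2) = q' * (N + 2) + (N + 2) + (N + 2) := by ring
  have eg : (q' + 1) * (N + 2) = q' * (N + 2) + (N + 2) := by ring
  have eqk : (q' + 1) * k = q' * k + k := by ring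
  have eqk2 : (q' + 2) * k = q' * k + 2 * k := by ring
  rcases Nat.eq_zero_or_pos c with h0 | h0
  · subst h0
    have e1 : (q' + 1 + 2) * (N + 2 + 0) + (i - 2) =
        (q' + 2) * (N + 2) + (N + 2) + (i - 2) := by ring
    refine lower_two (r := q' + 1 + 2) (c := 0) (s := i - 2) (z := (q' + 1) * (N + 2) + N)
      (g1 := q' * (N + 2) + N) (g2 := q' * (N + 2) + (N - 1)) (by omega) (by omega)
      (by intro h; omega) ?_ ?_ ?_ ?_ hm
    · refine mem_of_interval _ _ (q' + 1) _ (by omega) ?_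
      have : (q' + 1) * (N + 2 + k) = (q' + 1) * (N + 2) + (q' + 1) * k := by ring
      omega
    · rw [e1]; omega
    · intro _
      exact ⟨not_mem_gap (by omega) (by omega), by rw [e1]; omega⟩
    · intro _
      exact ⟨not_mem_gap (by omega) (by omega), by rw [e1]; omega⟩
  · have e1 : (q' + 1 + 2) * (N + 2 + c) + s =
        (q' + 2) * (N + 2) + (N + 2) + (q' + 2) * c + s + c := by ring
    refine lower_two (r := q' + 1 + 2) (c := c) (s := s) (z := (q' + 2) * (N + 2) + (c - 1))
      (g1 := q' * (N + 2) + (N + 1)) (g2 := q' * (N + 2) + N) (by omega) (by omega)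
      (by intro h; omega) ?_ ?_ ?_ ?_ hm
    · refine mem_of_interval _ _ (q' + 2) _ (by omega) ?_
      have : (q' + 2) * (N + 2 + k) = (q' + 2) * (N + 2) + (q' + 2) * k := by ring
      omega
    · rw [e1]; omega
    · intro _
      exact ⟨not_mem_gap (by omega) (by omega), by rw [e1]; omega⟩
    · intro _
      exact ⟨not_mem_gap (by omega) (by omega), by rw [e1]; omega⟩

/-- Lower bound, `i = 0`, value `q + 2`. -/
lemma lower_III {N k q δ m : ℕ} (hk1 : 1 ≤ k)
    (hN : N = q * k + δ) (hδ : δ < k) (hcase : δ = 0 → q + 1 ∣ k - 1)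
    (hm : Bound (Gam (N + 2) k) (N + 2 + 0) m) : q + 2 ≤ m := by
  obtain ⟨a, t, hat, ht⟩ : ∃ a t, k = (q + 1) * a + t + 1 ∧ t < q + 1 :=
    ⟨(k - 1) / (q + 1), (k - 1) % (q + 1),
      by have := Nat.div_add_mod (k - 1) (q + 1); omega, Nat.mod_lt _ (by omega)⟩
  have ht0 : δ = 0 → t = 0 := by
    intro h
    have h1 := hcase h
    have h2 : k - 1 = (q + 1) * a + t := by omega
    rw [h2] at h1
    exact Nat.eq_zero_of_dvd_of_lt ((Nat.dvd_add_right (Dvd.intro a rfl)).mp h1) ht
  obtain ⟨c, hc⟩ : ∃ c, c = q * a + t := ⟨_, rfl⟩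
  have hka : k = c + 1 + a := by
    have : (q + 1) * a = q * a + a := by ring
    omega
  have hlin : (q + 2) * c + q + 2 + a = (q + 1) * k + 1 + t := by
    rw [hat, hc]; ring
  have e1 : (q + 2) * (N + 2 + c) = q * (N + 2) + (N + 2) + (N + 2) + (q + 2) * c := by ring
  have eg : (q + 1) * (N + 2) = q * (N + 2) + (N + 2) := by ring
  have eqk : (q + 1) * k = q * k + k := by ring
  have hz : ∃ z ∈ Gam (N + 2) k, (q + 2) * (N + 2 + c) + (q + 2 - t) = (N + 2 + 0) + z := by
    rcases Nat.eq_zero_or_pos a with h0 | h0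
    · refine ⟨(q + 1) * (N + 2) + (q + 1) * k + 1, mem_of_interval _ _ (q + 2) _ ?_ ?_, ?_⟩
      · have : (q + 2) * (N + 2) = q * (N + 2) + (N + 2) + (N + 2) := by ring
        omega
      · have : (q + 2) * (N + 2 + k) = q * (N + 2) + (N + 2) + (N + 2) + (q * k + k + k) := by
          ring
        omega
      · rw [e1]; omega
    · refine ⟨(q + 1) * (N + 2) + ((q + 1) * k - (a - 1)), mem_of_interval _ _ (q + 1) _
        (by omega) ?_, ?_⟩
      · have : (q + 1) * (N + 2 + k) = (q + 1) * (N + 2) + (q + 1) * k := by ring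
        omega
      · rw [e1]; omega
  obtain ⟨z, hz, hz'⟩ := hz
  refine lower_two (r := q + 2) (c := c) (s := q + 2 - t) (g1 := q * (N + 2) + (q * k + 2))
    (g2 := q * (N + 2) + (q * k + 1)) (by omega) (by omega) (by intro h; omega) hz hz' ?_ ?_ hm
  · intro h
    have : 0 < δ := by
      rcases Nat.eq_zero_or_pos δ with h' | h'
      · have := ht0 h'; omega
      · exact h'
    exact ⟨not_mem_gap (by omega) (by omega), by rw [e1]; omega⟩
  · intro _
    exact ⟨not_mem_gap (by omega) (by omega), by rw [e1]; omega⟩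

/-- Lower bound, `i = 0`, value `q + 1`. -/
lemma lower_IV {N k q m : ℕ} (hkn : k < N + 2) (hk1 : 1 ≤ k)
    (hN : N = q * k) (hcase : ¬ (q + 1 ∣ k - 1))
    (hm : Bound (Gam (N + 2) k) (N + 2 + 0) m) : q + 1 ≤ m := by
  have hk2 : 2 ≤ k := by
    by_contra h
    have : k = 1 := by omega
    subst this
    simp at hcase
  obtain ⟨q', rfl⟩ : ∃ q', q = q' + 1 := by
    rcases Nat.eq_zero_or_pos q with h | h
    · subst h; omega
    · exact ⟨q - 1, by omega⟩
  have e1 : (q' + 1 + 1) * (N + 2 + k) = q' * (N + 2) + (N + 2) + (N + 2) + (q' * k + k + k) := by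
    ring
  have eqk : (q' + 1) * k = q' * k + k := by ring
  refine lower_two (r := q' + 1 + 1) (c := k) (s := 0) (z := (q' + 2) * (N + 2) + (k - 2))
    (g1 := q' * (N + 2) + N) (g2 := 0) (by omega) (by omega)
    (by intro h; omega) ?_ ?_ ?_ ?_ hm
  · refine mem_of_interval _ _ (q' + 2) _ (by omega) ?_
    have : (q' + 2) * (N + 2 + k) = (q' + 2) * (N + 2) + (q' * k + k + k) := by ring
    omega
  · have : (q' + 2) * (N + 2) = q' * (N + 2) + (N + 2) + (N + 2) := by ring
    rw [e1]; omega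
  · intro _
    exact ⟨not_mem_gap (by omega) (by omega), by rw [e1]; omega⟩
  · intro h
    omega

/-- **The omega values of the generators of `Γ_{n,k} = ⟨n, n+1, …, n+k⟩`**, for `n ≥ 2`,
`1 ≤ k ≤ n - 1` and `0 ≤ i ≤ k`. -/
theorem result (n k i : ℕ) (hn : 2 ≤ n) (hk1 : 1 ≤ k) (hk2 : k ≤ n - 1) (hi : i ≤ k) :
    IsLeast {m | Bound (Gam n k) (n + i) m} (value n k i) ∧
      omega (Gam n k) (n + i) = value n k i := by
  suffices h : IsLeast {m | Bound (Gam n k) (n + i) m} (value n k i) from ⟨h, h.csInf_eq⟩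
  obtain ⟨N, rfl⟩ : ∃ N, n = N + 2 := ⟨n - 2, by omega⟩
  obtain ⟨q, hq⟩ : ∃ q, q = N / k := ⟨_, rfl⟩
  obtain ⟨δ, hδ⟩ : ∃ δ, δ = N % k := ⟨_, rfl⟩
  have hN : N = q * k + δ := by
    rw [hq, hδ, mul_comm]; exact (Nat.div_add_mod N k).symm
  have hδk : δ < k := by rw [hδ]; exact Nat.mod_lt _ hk1
  have hdvd : k ∣ N ↔ δ = 0 := by rw [hδ]; exact Nat.dvd_iff_mod_eq_zero
  have hval : value (N + 2) k i =
      if i = 0 then (if δ = 0 ∧ ¬ (q + 1 ∣ k - 1) then q + 1 else q + 2)
      else (if δ = 0 ∧ ¬ (q + 2 ∣ i - 1) then q + 2 else q + 3) := by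
    simp only [value, Nat.add_sub_cancel, hdvd, ← hq]
  rw [hval]
  have hkn : k < N + 2 := by omega
  by_cases hi0 : i = 0
  · subst hi0
    simp only [if_true]
    by_cases hc : δ = 0 ∧ ¬ (q + 1 ∣ k - 1)
    · rw [if_pos hc]
      have hN' : N = q * k := by rw [hN, hc.1]; rfl
      refine ⟨upper hkn hi hN hδk ?_ ?_, fun m hm => lower_IV hkn hk1 hN' hc.2 hm⟩
      · rcases Nat.eq_zero_or_pos q with h | h
        · subst h
          have : k = 1 := by omega
          subst this
          exact absurd (by simp) hc.2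
        · omega
      · intro r h1 _ _ h4 _ h6
        exact hc.2 (h6 rfl (by have := h4 rfl; omega) hc.1)
    · rw [if_neg hc]
      refine ⟨upper hkn hi hN hδk (by omega) ?_, fun m hm => lower_III hk1 hN hδk ?_ hm⟩
      · intro r h1 _ _ h4 _ _
        have := h4 rfl
        omega
      · intro h
        by_contra h'
        exact hc ⟨h, h'⟩
  · simp only [if_neg hi0]
    have hi1 : 1 ≤ i := by omega
    by_cases hc : δ = 0 ∧ ¬ (q + 2 ∣ i - 1)
    · rw [if_pos hc]
      have hN' : N = q * k := by rw [hN, hc.1]; rfl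
      refine ⟨upper hkn hi hN hδk (by omega) ?_,
        fun m hm => lower_II hkn hi1 hi hN' hc.2 hm⟩
      intro r h1 _ h3 _ h5 _
      exact hc.2 (h5 (by omega) hc.1)
    · rw [if_neg hc]
      refine ⟨upper hkn hi hN hδk (by omega) ?_,
        fun m hm => lower_I hkn hi1 hi hN hδk ?_ hm⟩
      · intro r h1 _ h3 _ _ _
        omega
      · intro h
        by_contra h'
        exact hc ⟨h, h'⟩

end Pool.Agent.Results.MP_d5f0e7_al.Omega
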